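import Pool.Agent.H38.WT.Targets

/-!
# Row INA of the board `wt_modules`
-/

set_option autoImplicit false

namespace Pool.Agent.H42.WT

open Pool.Agent.H38.WT

theorem pf_INA (h1 : T_GMN) (h2 : T_GUN) : T_INA := by
  intro m ℓ F j K hm hCF hK
  obtain ⟨hKF, hjK, hKgood, -⟩ := hK
  have hm0 : 0 < m := lt_of_le_of_lt (Nat.zero_le _) j.2
  have hl : 0 < ℓ := by omega
  constructor
  · intro H G' hG' hsub x hx y hy hxy hyj
    by_contra hyn
    exact H G' hG' K hKF hsub x hx y hy hyn (hsub hx) hy hxy hyj
      (h1 m ℓ F y j K K hl hKF (le_refl _) hyj hKgood)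
  · intro H G' hG' G hG hsub x hx y hy hyn hxK hyK hxy hyj hgood
    rcases hCF.cross G' hG' K hKF with h | h | h | h
    · exact hyn (H G' hG' h x hx y hyK hxy hyj)
    · exact hyn (h hyK)
    · exact (Set.disjoint_left.mp h hx) hxK
    · apply h2 m ℓ F y j G K (by omega) hgood hKgood
      apply Set.eq_univ_of_univ_subset
      rw [← h]
      exact Set.union_subset_union_left K hsub

end Pool.Agent.H42.WT
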