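import Pool.Agent.H38.WT.Targets

/-!
# Row STN of the board `wt_modules`
-/

set_option autoImplicit false

namespace Pool.Agent.H42.WT

open Pool.Agent.H38.WT

theorem pf_STN : T_STN := by
  intro m ℓ F j hno
  constructor
  · intro h G' hG' G hG hsub x hx y hy hyn
    obtain ⟨h1, h2⟩ := h G' hG' G hG hsub x hx y hy hyn
    refine ⟨fun hxy hyj => h1 hxy (by omega), fun hyx hjx => ?_⟩
    rcases Nat.lt_or_ge (j : ℕ) (x : ℕ) with hlt | hge
    · exact h2 hyx hlt
    · intro hgood
      have hxj : x = j := Fin.ext (le_antisymm hge hjx)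
      subst hxj
      exact hno ⟨G, hG, hsub hx, hgood⟩
  · intro h G' hG' G hG hsub x hx y hy hyn
    obtain ⟨h1, h2⟩ := h G' hG' G hG hsub x hx y hy hyn
    refine ⟨fun hxy hyj => ?_, fun hyx hjx => h2 hyx (by omega)⟩
    rcases Nat.lt_or_ge (y : ℕ) (j : ℕ) with hlt | hge
    · exact h1 hxy hlt
    · intro hgood
      have hyj' : y = j := Fin.ext (by omega)
      subst hyj'
      exact hno ⟨G, hG, hy, hgood⟩

end Pool.Agent.H42.WT
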